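import Mathlib
import Pool.Agent.Helper24K9.EP.Rc
import Pool.Agent.W218.HF.Second

set_option autoImplicit false

/-! Primes in progressions with a very small modulus; one linear form with small coefficients, from below. -/

open Finset Filter Topology

namespace Pool.Agent.Helper24K9.ES

open Pool.Agent.Erdos456 H343E Pool.Agent.W218.HF Pool.Agent.Helper24K9.EL

/-- Siegel-Walfisz, from below -/
theorem sw (A : ℕ) (ρ : ℝ) (hρ : 0 < ρ) : ∃ x₀ : ℕ, ∀ x : ℕ, x₀ ≤ x → ∀ P : ℕ, 1 ≤ P → (P : ℝ) ≤ Real.log x ^ A →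
    ∀ r : ℕ, r.Coprime P →
    (1 - ρ) * (x / Real.log x) * (1 / (Nat.totient P : ℝ)) ≤ piAP x P r := by
  obtain ⟨B, X0, h⟩ := Pool.Agent.Helper24K9.EM.bv_lin2 (A + 2)
  obtain ⟨x₁, hpnt⟩ := Pool.Agent.H373R2.SH.pnt_windowB 4 (by norm_num) (ρ / 2) (by positivity)
  have hev : ∀ᶠ x : ℕ in atTop, 2 / ρ ≤ Real.log x ∧ 1 ≤ Real.log x ∧
      Real.log x ^ (2 * A + B) ≤ x := by
    have h1 : Tendsto (fun n : ℕ => Real.log n) atTop atTop := Real.tendsto_log_atTop.comp tendsto_natCast_atTop_atTop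
    have h2 := (Real.isLittleO_pow_log_id_atTop (n := 2 * A + B)).bound (show (0:ℝ) < 1 by norm_num)
    filter_upwards [h1.eventually_ge_atTop (2 / ρ), h1.eventually_ge_atTop 1,
      tendsto_natCast_atTop_atTop.eventually h2, eventually_ge_atTop 1] with x h3 h4 h5 h6
    refine ⟨h3, h4, ?_⟩
    have hx0 : (0:ℝ) ≤ x := Nat.cast_nonneg _
    simp only [id_eq] at h5
    rw [Real.norm_of_nonneg (by positivity), Real.norm_of_nonneg hx0, one_mul] at h5
    exact h5
  obtain ⟨x₂, hx₂⟩ := eventually_atTop.1 hev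
  refine ⟨max X0 (max x₁ x₂), fun x hx P hP hPA r hr => ?_⟩
  have hφ : (0:ℝ) < Nat.totient P := by exact_mod_cast Nat.totient_pos.2 hP
  have hP1 : (1:ℝ) ≤ P := by exact_mod_cast hP
  obtain ⟨h1, h2, h3⟩ := hx₂ x (((le_max_right _ _).trans (le_max_right _ _)).trans hx)
  have hlx : 0 < Real.log x := by linarith
  have hx0 : (0:ℝ) ≤ x := Nat.cast_nonneg _
  have hd2 : (P:ℝ) ^ 2 ≤ x / Real.log x ^ B := by
    rw [le_div_iff₀ (by positivity)]
    calc (P:ℝ) ^ 2 * Real.log x ^ B ≤ (Real.log x ^ A) ^ 2 * Real.log x ^ B := by gcongr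
      _ = Real.log x ^ (2 * A + B) := by rw [← pow_mul, ← pow_add]; congr 1; ring
      _ ≤ x := h3
  have hd1 : (P:ℝ) ≤ x / Real.log x ^ B := by
    refine le_trans ?_ hd2
    nlinarith
  have h4 := h x ((le_max_left _ _).trans hx) P hd1 hd2 {0} (fun _ => P) (fun _ => r) (by
    intro t _
    exact ⟨hP, le_rfl, hr⟩) (by
    intro s hs t ht _
    rw [coe_singleton, Set.mem_singleton_iff] at hs ht
    rw [hs, ht])
  rw [sum_singleton] at h4
  have h5 := hpnt x (((le_max_left _ _).trans (le_max_right _ _)).trans hx) 0 (Nat.zero_le _)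
  rw [Nat.add_zero, ← pi1_eq, ← pi1_eq] at h5
  have h6 : pi1 0 = 0 := by unfold pi1; simp
  rw [h6, sub_zero] at h5
  have h7 := (abs_le.1 h4).1
  have h8 : (1 - ρ / 2) * (x / Real.log x) * (1 / (Nat.totient P : ℝ)) ≤ pi1 x / (Nat.totient P : ℝ) := by
    rw [mul_one_div]
    exact div_le_div_of_nonneg_right h5 hφ.le
  have hφP : (Nat.totient P : ℝ) ≤ P := by exact_mod_cast Nat.totient_le P
  have h9 : (x:ℝ) / Real.log x ^ (A + 2) ≤ ρ / 2 * (x / Real.log x) * (1 / (Nat.totient P : ℝ)) := by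
    rw [div_le_iff₀ hρ] at h1
    have e : (x:ℝ) / Real.log x ^ (A + 2) = (x / Real.log x) * (1 / (Real.log x ^ A * Real.log x)) := by
      rw [pow_add]; field_simp
    rw [e]
    have h10 : 1 / (Real.log x ^ A * Real.log x) ≤ ρ / 2 * (1 / (Nat.totient P : ℝ)) := by
      rw [mul_one_div, div_le_div_iff₀ (by positivity) hφ, one_mul]
      calc (Nat.totient P : ℝ) ≤ Real.log x ^ A := hφP.trans hPA
        _ = Real.log x ^ A * 1 := by ring
        _ ≤ Real.log x ^ A * (ρ / 2 * Real.log x) := by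
            apply mul_le_mul_of_nonneg_left _ (by positivity)
            linarith
        _ = _ := by ring
    calc (x:ℝ) / Real.log x * (1 / (Real.log x ^ A * Real.log x)) ≤
        (x / Real.log x) * (ρ / 2 * (1 / (Nat.totient P : ℝ))) := by gcongr
      _ = _ := by ring
  linarith

/-- one linear form with small coefficients, from below -/
theorem one_form_lower (A : ℕ) (η : ℝ) (hη : 0 < η) (hη1 : η ≤ 1) : ∃ N₀ : ℕ, ∀ N : ℕ, N₀ ≤ N → ∀ q e : ℕ, 1 ≤ q →
    (q : ℝ) ≤ Real.log N ^ A → (e : ℝ) ≤ Real.log N ^ A → q.Coprime e →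
    (1 - η) * GG q * (N / Real.log N) ≤ (((Icc 1 N).filter (fun n => (q * n + e).Prime)).card : ℝ) := by
  classical
  obtain ⟨x₀, hx₀⟩ := sw A (η / 4) (by positivity)
  have hev : ∀ᶠ N : ℕ in atTop, 1 ≤ Real.log N ∧ Real.log N ^ (A + 1) ≤ η / 2 * N ∧
      A * Real.log (Real.log N) ≤ η / 4 * Real.log N ∧ 1 ≤ N := by
    have h1 : Tendsto (fun n : ℕ => Real.log n) atTop atTop := Real.tendsto_log_atTop.comp tendsto_natCast_atTop_atTop
    have h2 := (Real.isLittleO_pow_log_id_atTop (n := A + 1)).bound (show (0:ℝ) < η / 2 by positivity)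
    have h3 := (Real.isLittleO_log_id_atTop).bound (show (0:ℝ) < η / (4 * (A + 1)) by positivity)
    filter_upwards [h1.eventually_ge_atTop 1,
      tendsto_natCast_atTop_atTop.eventually h2, h1.eventually h3, eventually_ge_atTop 1] with N h4 h5 h6 h7
    refine ⟨h4, ?_, ?_, h7⟩
    · have hx0 : (0:ℝ) ≤ N := Nat.cast_nonneg _
      simp only [id_eq] at h5
      rw [Real.norm_of_nonneg (by positivity), Real.norm_of_nonneg hx0] at h5
      exact h5
    · simp only [id_eq] at h6
      have h8 : 0 ≤ Real.log (Real.log N) := Real.log_nonneg h4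
      rw [Real.norm_of_nonneg h8, Real.norm_of_nonneg (by linarith)] at h6
      have hA : (0:ℝ) ≤ A := Nat.cast_nonneg _
      calc (A:ℝ) * Real.log (Real.log N) ≤ (A + 1) * Real.log (Real.log N) := by
            apply mul_le_mul_of_nonneg_right (by linarith) h8
        _ ≤ (A + 1) * (η / (4 * (A + 1)) * Real.log N) := by gcongr
        _ = η / 4 * Real.log N := by field_simp
  obtain ⟨N₁, hN₁⟩ := eventually_atTop.1 hev
  refine ⟨max x₀ N₁, fun N hN q e hq hqA heA hqe => ?_⟩
  obtain ⟨h1, h2, h3, h4⟩ := hN₁ N ((le_max_right _ _).trans hN)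
  have hN0 : (0:ℝ) < N := by exact_mod_cast h4
  have hq0 : (0:ℝ) < q := by exact_mod_cast hq
  have hq1 : (1:ℝ) ≤ q := by exact_mod_cast hq
  have hl0 : 0 < Real.log N := by linarith
  have hxN : N ≤ q * N := Nat.le_mul_of_pos_left _ hq
  have hlx : Real.log N ≤ Real.log ((q * N : ℕ) : ℝ) := Real.log_le_log hN0 (by exact_mod_cast hxN)
  have hlx0 : 0 < Real.log ((q * N : ℕ) : ℝ) := by linarith
  have hlx2 : Real.log ((q * N : ℕ) : ℝ) ≤ (1 + η / 4) * Real.log N := by
    push_cast
    rw [Real.log_mul hq0.ne' hN0.ne']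
    have h5 := Real.log_le_log hq0 hqA
    rw [Real.log_pow] at h5
    linarith
  have h5 := hx₀ (q * N) (((le_max_left _ _).trans hN).trans hxN) q hq (hqA.trans (pow_le_pow_left₀ hl0.le hlx A))
    e hqe.symm
  have h6 : piAP (q * N) q e ≤ (((Icc 1 N).filter (fun n => (q * n + e).Prime)).card : ℝ) + e := by
    unfold piAP
    have h7 : (Icc 1 (q * N)).filter (fun p => p.Prime ∧ p ≡ e [MOD q]) ⊆
        ((Icc 1 N).filter (fun n => (q * n + e).Prime)).image (fun n => q * n + e) ∪ Icc 1 e := by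
      intro p hp
      rw [mem_filter, mem_Icc] at hp
      rw [mem_union, mem_image, mem_Icc]
      by_cases h8 : p ≤ e
      · exact Or.inr ⟨hp.1.1, h8⟩
      · left
        push Not at h8
        have h9 : q ∣ p - e := (Nat.modEq_iff_dvd' h8.le).1 hp.2.2.symm
        obtain ⟨n, hn⟩ := h9
        have h10 : q * n + e = p := by omega
        refine ⟨n, ?_, h10⟩
        rw [mem_filter, mem_Icc, h10]
        refine ⟨⟨?_, ?_⟩, hp.2.1⟩
        · rw [Nat.one_le_iff_ne_zero]
          rintro rfl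
          omega
        · have h11 : q * n ≤ q * N := by omega
          exact Nat.le_of_mul_le_mul_left h11 hq
    have h8 := (card_le_card h7).trans (card_union_le _ _)
    rw [Nat.card_Icc, Nat.add_sub_cancel] at h8
    have h9 := h8.trans (Nat.add_le_add_right card_image_le _)
    exact_mod_cast h9
  have hφ : (0:ℝ) < Nat.totient q := by exact_mod_cast Nat.totient_pos.2 hq
  have hGG : (1:ℝ) ≤ GG q := one_le_GG hq
  have h7 : (1 - η / 2) * GG q * (N / Real.log N) ≤
      (1 - η / 4) * (((q * N : ℕ) : ℝ) / Real.log ((q * N : ℕ) : ℝ)) * (1 / (Nat.totient q : ℝ)) := by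
    have e1 : (1 - η / 4) * (((q * N : ℕ) : ℝ) / Real.log ((q * N : ℕ) : ℝ)) * (1 / (Nat.totient q : ℝ)) =
        (1 - η / 4) * GG q * (N / Real.log ((q * N : ℕ) : ℝ)) := by
      unfold GG
      push_cast
      field_simp
    rw [e1]
    have h8 : (1 - η / 4) * (N / Real.log N) ≤ N / Real.log ((q * N : ℕ) : ℝ) := by
      rw [le_div_iff₀ hlx0]
      calc (1 - η / 4) * (N / Real.log N) * Real.log ((q * N : ℕ) : ℝ) ≤
          (1 - η / 4) * (N / Real.log N) * ((1 + η / 4) * Real.log N) := by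
            apply mul_le_mul_of_nonneg_left hlx2
            apply mul_nonneg (by linarith) (by positivity)
        _ = (1 - (η / 4) ^ 2) * N := by field_simp; ring
        _ ≤ 1 * N := by
            apply mul_le_mul_of_nonneg_right _ hN0.le
            nlinarith
        _ = N := one_mul _
    calc (1 - η / 2) * GG q * (N / Real.log N) ≤ (1 - η / 4) * (1 - η / 4) * GG q * (N / Real.log N) := by
          apply mul_le_mul_of_nonneg_right _ (by positivity)
          apply mul_le_mul_of_nonneg_right _ (by linarith)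
          nlinarith
      _ = (1 - η / 4) * GG q * ((1 - η / 4) * (N / Real.log N)) := by ring
      _ ≤ (1 - η / 4) * GG q * (N / Real.log ((q * N : ℕ) : ℝ)) := by
          apply mul_le_mul_of_nonneg_left h8
          apply mul_nonneg (by linarith) (by linarith)
  have h8 : (e : ℝ) ≤ η / 2 * GG q * (N / Real.log N) := by
    have h9 : Real.log N ^ A ≤ η / 2 * (N / Real.log N) := by
      rw [← mul_div_assoc, le_div_iff₀ hl0, ← pow_succ]
      exact h2
    calc (e:ℝ) ≤ η / 2 * (N / Real.log N) := heA.trans h9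
      _ = η / 2 * 1 * (N / Real.log N) := by ring
      _ ≤ _ := by gcongr
  linarith

end Pool.Agent.Helper24K9.ES
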