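import Mathlib
import Pool.Agent.Helper24K9.ES.Sw
import Pool.Agent.Helper24K9.EP.Mo

set_option autoImplicit false

/-! Many linear forms with small coefficients which are divisible by all small primes. -/

open Finset Filter Topology

namespace Pool.Agent.Helper24K9.ES

open Pool.Agent.Erdos456 Pool.Agent.Erdos456.Mert Pool.Agent.W218.HF Pool.Agent.Helper24K9.EL Pool.Agent.Helper24K9.EP

lemma GG_le_W (A : ℝ) (hA : 0 ≤ A) {m y : ℕ} (hm : 0 < m) (hy : 1 ≤ y) (h : (m : ℝ) ≤ Real.exp (A * y)) :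
    GG m ≤ Real.exp (3 / 2 * A) / Wz y := by
  have h1 := GG_le_small' A hA hm hy h
  refine h1.trans ?_
  rw [div_eq_mul_inv]
  apply mul_le_mul_of_nonneg_left _ (Real.exp_pos _).le
  have e : (Wz y)⁻¹ = ∏ p ∈ PP y, (1 - (p : ℝ)⁻¹)⁻¹ := by
    unfold Wz PP
    rw [← prod_inv_distrib]
    apply prod_congr rfl
    intro p _
    rw [one_div]
  rw [e]
  apply prod_le_prod_of_subset_of_one_le
  · exact filter_subset _ _
  · intro p hp
    rw [mem_filter, PP, mem_filter] at hp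
    exact zero_le_one.trans (factor_ge_one hp.1.2)
  · intro p hp _
    rw [PP, mem_filter] at hp
    exact factor_ge_one hp.2

lemma W_le_GG {q y : ℕ} (hq : 1 ≤ q) (h : Pz y ∣ q) : 1 / Wz y ≤ GG q := by
  have h1 := GG_mono_dvd hq h
  refine le_trans (le_of_eq ?_) h1
  have hP : 0 < Pz y := Nat.pos_of_dvd_of_pos h hq
  rw [GG_eq_prod hP]
  have e : (Pz y).primeFactors = (Icc 1 y).filter Nat.Prime := by
    unfold Pz
    exact Nat.primeFactors_prod fun p hp => (mem_filter.1 hp).2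
  rw [e]
  unfold Wz
  rw [one_div, ← prod_inv_distrib]
  apply prod_congr rfl
  intro p _
  rw [one_div]

/-- **Many linear forms.** -/
theorem forms (A : ℕ) (κ : ℝ) (hκ : 0 < κ) (hκ1 : κ ≤ 1) : ∃ κ₁ : ℝ, 0 < κ₁ ∧ ∃ N₀ : ℕ, ∀ N : ℕ, N₀ ≤ N →
    ∀ y : ℕ, Real.log (Real.log N) ≤ y → ∀ (I : Finset ℕ) (q e : ℕ → ℕ),
    (∀ i ∈ I, 1 ≤ q i ∧ (q i : ℝ) ≤ Real.log N ^ A ∧ (e i : ℝ) ≤ Real.log N ^ A ∧ (q i).Coprime (e i) ∧ Pz y ∣ q i) →
    (∀ i ∈ I, ∀ j ∈ I, i ≠ j → q i * e j ≠ q j * e i) →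
    κ₁ * N * ((I.card / (Wz y * Real.log N)) / (1 + I.card / (Wz y * Real.log N))) ≤
      (((Icc 1 N).filter (fun n => (1 - κ) * (I.card / (Wz y * Real.log N)) ≤
        ((I.filter (fun i => (q i * n + e i).Prime)).card : ℝ))).card : ℝ) := by
  classical
  obtain ⟨N₁, hN₁⟩ := one_form_lower A (κ / 2) (by positivity) (by linarith)
  obtain ⟨C₃, hC₃, hsv⟩ := sieve_two'
  set Γ : ℝ := Real.exp (3 / 2 * (4 * A + 2)) with hΓ
  have hΓ0 : 0 < Γ := Real.exp_pos _
  set M : ℝ := 20 * Γ + C₃ * Γ ^ 2 with hM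
  have hM0 : 0 < M := by positivity
  have hev : ∀ᶠ N : ℕ in atTop, 2 ≤ Real.log N ∧ 1 ≤ Real.log (Real.log N) := by
    have h1 : Tendsto (fun n : ℕ => Real.log n) atTop atTop := Real.tendsto_log_atTop.comp tendsto_natCast_atTop_atTop
    exact (h1.eventually_ge_atTop 2).and ((Real.tendsto_log_atTop.comp h1).eventually_ge_atTop 1)
  obtain ⟨N₂, hN₂⟩ := eventually_atTop.1 hev
  refine ⟨κ ^ 2 / (4 * M), by positivity, max (max N₁ N₂) 3, fun N hN y hy I q e hI hne => ?_⟩
  obtain ⟨hl2, hll1⟩ := hN₂ N (((le_max_right _ _).trans (le_max_left _ _)).trans hN)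
  have hN3 : 3 ≤ N := (le_max_right _ _).trans hN
  have hN1' : N₁ ≤ N := ((le_max_left _ _).trans (le_max_left _ _)).trans hN
  set L : ℝ := Real.log N with hL
  have hL0 : 0 < L := by linarith
  have hN0 : (0:ℝ) < N := by exact_mod_cast (by omega : 0 < N)
  have hW0 : 0 < Wz y := Wz_pos y
  set W : ℝ := Wz y with hWdef
  have hy1r : (1:ℝ) ≤ y := hll1.trans hy
  have hy1 : 1 ≤ y := by exact_mod_cast hy1r
  set c : ℝ := (I.card : ℝ) with hc
  have hc0 : 0 ≤ c := Nat.cast_nonneg _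
  set X : ℝ := c / (W * L) with hX
  have hX0 : 0 ≤ X := by positivity
  -- sizes
  have hexpL : L ≤ Real.exp y := by
    rw [← Real.log_le_iff_le_exp hL0]
    exact hy
  have hLA : L ^ A ≤ Real.exp (A * y) := by
    rw [Real.exp_nat_mul]
    exact pow_le_pow_left₀ hL0.le hexpL A
  have hq1 : ∀ i ∈ I, GG (q i) ≤ Γ / W := by
    intro i hi
    obtain ⟨h1, h2, -, -, -⟩ := hI i hi
    refine GG_le_W (4 * A + 2) (by positivity) h1 hy1 (h2.trans (hLA.trans (Real.exp_le_exp.2 ?_)))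
    have : (0:ℝ) ≤ A := Nat.cast_nonneg _
    nlinarith
  have hq2 : ∀ i ∈ I, 1 / W ≤ GG (q i) := fun i hi => W_le_GG (hI i hi).1 (hI i hi).2.2.2.2
  have hpair : ∀ i ∈ I, ∀ j ∈ I, i ≠ j →
      GG (q i * q j * (((q i * e j : ℕ) : ℤ) - ((q j * e i : ℕ) : ℤ)).natAbs) ≤ Γ / W := by
    intro i hi j hj hij
    obtain ⟨h1, h2, h3, -, -⟩ := hI i hi
    obtain ⟨h4, h5, h6, -, -⟩ := hI j hj
    have h7 := hne i hi j hj hij
    have h8 : ((q i * e j : ℕ) : ℤ) - ((q j * e i : ℕ) : ℤ) ≠ 0 := by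
      intro h
      apply h7
      have : ((q i * e j : ℕ) : ℤ) = ((q j * e i : ℕ) : ℤ) := by linarith
      exact_mod_cast this
    have h9 : 0 < (((q i * e j : ℕ) : ℤ) - ((q j * e i : ℕ) : ℤ)).natAbs := Int.natAbs_pos.2 h8
    refine GG_le_W (4 * A + 2) (by positivity) (by positivity) hy1 ?_
    have hd : ((((q i * e j : ℕ) : ℤ) - ((q j * e i : ℕ) : ℤ)).natAbs : ℝ) ≤ 2 * (L ^ A * L ^ A) := by
      rw [Nat.cast_natAbs]
      push_cast
      refine (abs_sub _ _).trans ?_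
      rw [abs_of_nonneg (by positivity), abs_of_nonneg (by positivity)]
      have h10 : (q i : ℝ) * e j ≤ L ^ A * L ^ A := by gcongr
      have h11 : (q j : ℝ) * e i ≤ L ^ A * L ^ A := by gcongr
      linarith
    have he2 : (2:ℝ) ≤ Real.exp (2 * y) := by
      have := Real.add_one_le_exp (2 * (y:ℝ))
      linarith
    push_cast at hd ⊢
    calc (q i : ℝ) * q j * _ ≤ L ^ A * L ^ A * (2 * (L ^ A * L ^ A)) := by gcongr
      _ = 2 * (L ^ A) ^ 4 := by ring
      _ ≤ Real.exp (2 * y) * Real.exp (A * y) ^ 4 := by gcongr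
      _ = Real.exp ((4 * A + 2) * y) := by
          rw [← Real.exp_nat_mul, ← Real.exp_add]; congr 1; push_cast; ring
  -- the count
  set F : ℕ → ℝ := fun n => ((I.filter (fun i => (q i * n + e i).Prime)).card : ℝ) with hF
  have hF0 : ∀ n, 0 ≤ F n := fun n => Nat.cast_nonneg _
  have hfirst : (1 - κ / 2) * (X * N) ≤ ∑ n ∈ Icc 1 N, F n := by
    have h1 : ∑ n ∈ Icc 1 N, F n = ∑ i ∈ I, (((Icc 1 N).filter (fun n => (q i * n + e i).Prime)).card : ℝ) := by
      simp only [hF, card_filter]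
      push_cast
      rw [sum_comm]
    rw [h1]
    have h2 : ∀ i ∈ I, (1 - κ / 2) * (1 / W) * (N / L) ≤
        (((Icc 1 N).filter (fun n => (q i * n + e i).Prime)).card : ℝ) := by
      intro i hi
      obtain ⟨h3, h4, h5, h6, -⟩ := hI i hi
      refine le_trans ?_ (hN₁ N hN1' (q i) (e i) h3 h4 h5 h6)
      apply mul_le_mul_of_nonneg_right _ (by positivity)
      exact mul_le_mul_of_nonneg_left (hq2 i hi) (by linarith)
    refine le_trans (le_of_eq ?_) (sum_le_sum h2)
    rw [sum_const, nsmul_eq_mul, hX, ← hc]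
    field_simp
  have hsecond : ∑ n ∈ Icc 1 N, F n ^ 2 ≤ M * N * (X + X ^ 2) := by
    have h1 : ∑ n ∈ Icc 1 N, F n ^ 2 = ∑ i ∈ I, ∑ j ∈ I,
        (((Icc 1 N).filter (fun n => (q i * n + e i).Prime ∧ (q j * n + e j).Prime)).card : ℝ) := by
      have h2 : ∀ n ∈ Icc 1 N, F n ^ 2 = ∑ i ∈ I, ∑ j ∈ I,
          (if (q i * n + e i).Prime ∧ (q j * n + e j).Prime then (1 : ℝ) else 0) := by
        intro n _
        simp only [hF, card_filter]
        push_cast
        rw [sq, sum_mul_sum]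
        apply sum_congr rfl
        intro i _
        apply sum_congr rfl
        intro j _
        by_cases h4 : (q i * n + e i).Prime <;> by_cases h5 : (q j * n + e j).Prime <;> simp [h4, h5]
      rw [sum_congr rfl h2, sum_comm]
      apply sum_congr rfl
      intro i _
      rw [sum_comm]
      apply sum_congr rfl
      intro j _
      rw [card_filter]
      push_cast
      rfl
    rw [h1]
    have h2 : ∀ i ∈ I, ∀ j ∈ I,
        (((Icc 1 N).filter (fun n => (q i * n + e i).Prime ∧ (q j * n + e j).Prime)).card : ℝ) ≤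
        (if i = j then 20 * (Γ / W) * (N / L) else 0) + C₃ * (Γ / W) ^ 2 * N / L ^ 2 := by
      intro i hi j hj
      by_cases hij : i = j
      · subst hij
        rw [if_pos rfl]
        have h3 := one_form (t := q i) (e := e i) (N := N) (hI i hi).1 (by omega)
        simp only [and_self]
        have h4 : 20 * GG (q i) * (N / Real.log N) ≤ 20 * (Γ / W) * (N / L) := by
          have := hq1 i hi
          rw [← hL]
          gcongr
        have h5 : 0 ≤ C₃ * (Γ / W) ^ 2 * N / L ^ 2 := by positivity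
        linarith
      · rw [if_neg hij, zero_add]
        refine (hsv (q i) (e i) (q j) (e j) N (hI i hi).1 (hI j hj).1 (hI i hi).2.2.2.1 (hI j hj).2.2.2.1
          (hne i hi j hj hij) (by omega)).trans ?_
        have h3 := hpair i hi j hj hij
        have h4 := GG_nonneg (q i * q j * (((q i * e j : ℕ) : ℤ) - ((q j * e i : ℕ) : ℤ)).natAbs)
        rw [← hL]
        gcongr
    refine (sum_le_sum fun i hi => sum_le_sum fun j hj => h2 i hi j hj).trans ?_
    simp only [sum_add_distrib, sum_ite_eq, sum_const, nsmul_eq_mul]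
    rw [sum_ite_mem, inter_self, sum_const, nsmul_eq_mul, ← hc]
    have e1 : c * (20 * (Γ / W) * (N / L)) = 20 * Γ * N * X := by
      rw [hX]; field_simp
    have e2 : c * (c * (C₃ * (Γ / W) ^ 2 * N / L ^ 2)) = C₃ * Γ ^ 2 * N * X ^ 2 := by
      rw [hX]; field_simp
    rw [e1, e2, hM]
    have h3 : 0 ≤ C₃ * Γ ^ 2 * N * X := by positivity
    have h4 : 0 ≤ 20 * Γ * N * X ^ 2 := by positivity
    linarith
  -- the exceptional set
  set E := (Icc 1 N).filter (fun n => (1 - κ) * X ≤ F n) with hE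
  show κ ^ 2 / (4 * M) * N * (X / (1 + X)) ≤ (E.card : ℝ)
  rcases hX0.eq_or_lt with hXz | hXpos
  · rw [← hXz]; simp
  have hsplit : ∑ n ∈ Icc 1 N, F n ≤ (1 - κ) * X * N + ∑ n ∈ E, F n := by
    have h1 : ∀ n ∈ Icc 1 N, F n ≤ (1 - κ) * X + (if n ∈ E then F n else 0) := by
      intro n hn
      have h2 : 0 ≤ (1 - κ) * X := mul_nonneg (by linarith) hX0
      by_cases h : n ∈ E
      · rw [if_pos h]; linarith
      · rw [if_neg h, add_zero]
        rw [hE, mem_filter, not_and, not_le] at h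
        exact (h hn).le
    refine (sum_le_sum h1).trans ?_
    rw [sum_add_distrib, sum_const, nsmul_eq_mul, Nat.card_Icc, Nat.add_sub_cancel, ← sum_filter]
    have h2 : (Icc 1 N).filter (fun n => n ∈ E) = E := by
      ext n
      rw [mem_filter]
      constructor
      · exact fun h => h.2
      · exact fun h => ⟨(mem_filter.1 h).1, h⟩
    rw [h2]
    linarith
  have hES : κ / 2 * (X * N) ≤ ∑ n ∈ E, F n := by
    have e1 : (1 - κ / 2) * (X * N) = (1 - κ) * X * N + κ / 2 * (X * N) := by ring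
    linarith
  have hCS : (∑ n ∈ E, F n) ^ 2 ≤ E.card * (M * N * (X + X ^ 2)) := by
    have h1 := sq_sum_le_card_mul_sum_sq (s := E) (f := F)
    refine h1.trans ?_
    apply mul_le_mul_of_nonneg_left _ (Nat.cast_nonneg _)
    refine le_trans ?_ hsecond
    apply sum_le_sum_of_subset_of_nonneg (filter_subset _ _)
    intro n _ _
    positivity
  have h1 : (κ / 2 * (X * N)) ^ 2 ≤ E.card * (M * N * (X + X ^ 2)) :=
    (pow_le_pow_left₀ (by positivity) hES 2).trans hCS
  have h2 : κ ^ 2 / (4 * M) * N * (X / (1 + X)) = (κ / 2 * (X * N)) ^ 2 / (M * N * (X + X ^ 2)) := by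
    field_simp
    ring
  rw [h2, div_le_iff₀ (by positivity)]
  exact h1

end Pool.Agent.Helper24K9.ES
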