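import Mathlib
import Pool.Agent.Helper24K9.ES.Af
import Pool.Agent.Helper24K9.EP.Pc

set_option autoImplicit false

/-! Classes modulo the product of the small primes. -/

open Finset Filter Topology

namespace Pool.Agent.Helper24K9.ES

open Pool.Agent.Erdos456 Pool.Agent.Erdos456.Mert Pool.Agent.W218.HF Pool.Agent.Helper24K9.EL Pool.Agent.Helper24K9.EP

lemma Pz_pos (y : ℕ) : 0 < Pz y := prod_pos fun p hp => (mem_filter.1 hp).2.pos

lemma dvd_Pz {p y : ℕ} (hp : p.Prime) (hpy : p ≤ y) : p ∣ Pz y :=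
  dvd_prod_of_mem _ (mem_filter.2 ⟨mem_Icc.2 ⟨hp.one_lt.le, hpy⟩, hp⟩)

lemma Pz_le (y : ℕ) : Pz y ≤ 4 ^ y := by
  refine le_trans (le_of_eq ?_) (primorial_le_four_pow y)
  unfold Pz primorial
  apply prod_congr _ (fun _ _ => rfl)
  ext p
  simp only [mem_filter, mem_Icc, mem_range]
  constructor
  · rintro ⟨⟨_, h1⟩, h2⟩; exact ⟨by omega, h2⟩
  · rintro ⟨h1, h2⟩; exact ⟨⟨h2.one_lt.le, by omega⟩, h2⟩

/-- the number of the classes in which `k g + h` has no small prime factor -/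
lemma class_count (y : ℕ) (g h : ℤ) (hgh : IsCoprime g h) : (Pz y : ℝ) * Wz y ≤
    (((range (Pz y)).filter (fun r : ℕ => ∀ p ≤ y, p.Prime → ¬ (p : ℤ) ∣ (r : ℤ) * g + h)).card : ℝ) := by
  classical
  set Q := (Icc 1 y).filter Nat.Prime with hQ
  have hQp : ∀ q ∈ Q, q.Prime := fun q hq => (mem_filter.1 hq).2
  have h1 := Pool.Agent.H373R2.BH.crt_count Q hQp (fun p r => ¬ (p : ℤ) ∣ (r : ℤ) * g + h)
  have h2 : (range (Pz y)).filter (fun r : ℕ => ∀ p ≤ y, p.Prime → ¬ (p : ℤ) ∣ (r : ℤ) * g + h) =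
      (range (∏ p ∈ Q, p)).filter (fun r => ∀ p ∈ Q, ¬ (p : ℤ) ∣ ((r % p : ℕ) : ℤ) * g + h) := by
    have e : Pz y = ∏ p ∈ Q, p := rfl
    rw [e]
    apply filter_congr
    intro r _
    have key : ∀ p : ℕ, (p : ℤ) ∣ ((r % p : ℕ) : ℤ) * g + h ↔ (p : ℤ) ∣ (r : ℤ) * g + h := by
      intro p
      have e1 : (r : ℤ) * g + h = (((r % p : ℕ) : ℤ) * g + h) + p * ((r / p : ℕ) * g) := by
        have : (r : ℤ) = p * (r / p : ℕ) + (r % p : ℕ) := by exact_mod_cast (Nat.div_add_mod r p).symm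
        rw [this]; ring_nf
        try simp [Nat.mod_mod]
      rw [e1]
      exact (dvd_add_left (Dvd.intro _ rfl)).symm
    constructor
    · intro h3 p hp
      rw [hQ, mem_filter, mem_Icc] at hp
      rw [key]
      exact h3 p hp.1.2 hp.2
    · intro h3 p hpy hp
      have := h3 p (by rw [hQ, mem_filter, mem_Icc]; exact ⟨⟨hp.one_lt.le, hpy⟩, hp⟩)
      rwa [key] at this
  rw [h2, h1]
  have h3 : (Pz y : ℝ) * Wz y = ∏ p ∈ Q, ((p : ℝ) - 1) := by
    unfold Pz Wz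
    push_cast
    rw [← prod_mul_distrib]
    apply prod_congr rfl
    intro p hp
    have : (p:ℝ) ≠ 0 := by exact_mod_cast (hQp p hp).ne_zero
    field_simp
  rw [h3]
  push_cast
  apply Finset.prod_le_prod
  · intro p hp
    have : (1:ℝ) < p := by exact_mod_cast (hQp p hp).one_lt
    linarith
  · intro p hp
    have hpp := hQp p hp
    have h4 := card_filter_add_card_filter_not (s := range p) (fun r : ℕ => (p : ℤ) ∣ (r : ℤ) * g + h)
    rw [card_range] at h4
    have h5 : ((range p).filter (fun r : ℕ => (p : ℤ) ∣ (r : ℤ) * g + h)).card ≤ 1 := by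
      rw [card_le_one]
      intro r hr s hs
      rw [mem_filter, mem_range] at hr hs
      have h6 : (p : ℤ) ∣ ((r : ℤ) - s) * g := by
        have := dvd_sub hr.2 hs.2
        have e : (r : ℤ) * g + h - ((s : ℤ) * g + h) = ((r : ℤ) - s) * g := by ring
        rwa [e] at this
      rcases (Nat.prime_iff_prime_int.1 hpp).dvd_or_dvd h6 with h7 | h7
      · have h8 : s ≡ r [MOD p] := (Nat.modEq_iff_dvd).2 h7
        unfold Nat.ModEq at h8
        rw [Nat.mod_eq_of_lt hr.1, Nat.mod_eq_of_lt hs.1] at h8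
        exact h8.symm
      · exfalso
        have h8 : (p : ℤ) ∣ h := (dvd_add_right (h7.mul_left _)).1 hr.2
        have h9 := hgh.isUnit_of_dvd' h7 h8
        rw [Int.isUnit_iff] at h9
        have := hpp.two_le
        omega
    have h6 : (((range p).filter (fun r : ℕ => (p : ℤ) ∣ (r : ℤ) * g + h)).card : ℝ) ≤ 1 := by exact_mod_cast h5
    have h7 : (((range p).filter (fun r : ℕ => (p : ℤ) ∣ (r : ℤ) * g + h)).card : ℝ) +
        (((range p).filter (fun r : ℕ => ¬ (p : ℤ) ∣ (r : ℤ) * g + h)).card : ℝ) = p := by exact_mod_cast h4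
    linarith

/-- Mertens -/
lemma Wz_lower : ∃ c : ℝ, 0 < c ∧ ∀ y : ℕ, 3 ≤ y → c / Real.log y ≤ Wz y := by
  obtain ⟨C, hC⟩ := mertens_inv
  refine ⟨Real.exp (-(C + 2)), Real.exp_pos _, fun y hy => ?_⟩
  have h1 := (abs_le.1 (hC y hy)).2
  have hy3 : (3:ℝ) ≤ y := by exact_mod_cast hy
  have hl0 : 0 < Real.log y := Real.log_pos (by linarith)
  set Q := (Icc 1 y).filter Nat.Prime with hQ
  have hQp : ∀ q ∈ Q, q.Prime := fun q hq => (mem_filter.1 hq).2
  have h2 : ∀ p ∈ Q, -(1 / (p:ℝ)) - 2 * ((p : ℝ) ^ 2)⁻¹ ≤ Real.log (1 - 1 / (p : ℝ)) := by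
    intro p hp
    have hp2 : (2:ℝ) ≤ p := by exact_mod_cast (hQp p hp).two_le
    have h3 := log_one_sub (1 / (p:ℝ)) (by positivity) (one_div_le_one_div_of_le (by norm_num) hp2)
    have h4 := (abs_le.1 h3).1
    rw [div_pow, one_pow, one_div ((p:ℝ)^2)] at h4
    linarith
  have h3 : ∑ p ∈ Q, ((p : ℝ) ^ 2)⁻¹ ≤ 1 := by
    have h4 : Q ⊆ Ioc 1 y := by
      intro p hp
      rw [mem_Ioc]
      have h5 := mem_filter.1 hp
      exact ⟨h5.2.one_lt, (mem_Icc.1 h5.1).2⟩
    refine (sum_le_sum_of_subset_of_nonneg h4 (fun _ _ _ => by positivity)).trans ?_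
    have h5 := sum_Ioc_inv_sq_le_sub (α := ℝ) (k := 1) (n := y) one_ne_zero (by omega)
    refine h5.trans ?_
    have : (0:ℝ) ≤ (y:ℝ)⁻¹ := by positivity
    simp only [Nat.cast_one, inv_one]
    linarith
  have h4 : -(Real.log (Real.log y) + C) - 2 ≤ Real.log (Wz y) := by
    unfold Wz
    rw [Real.log_prod (fun p hp => (one_sub_pos (hQp p hp)).ne')]
    refine le_trans ?_ (sum_le_sum h2)
    rw [sum_sub_distrib, sum_neg_distrib, ← mul_sum]
    linarith
  have h5 := Real.exp_le_exp.2 h4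
  rw [Real.exp_log (Wz_pos y)] at h5
  refine le_trans (le_of_eq ?_) h5
  have e : -(Real.log (Real.log y) + C) - 2 = -(C + 2) - Real.log (Real.log y) := by ring
  rw [e, Real.exp_sub, Real.exp_log hl0]

end Pool.Agent.Helper24K9.ES
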