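import Mathlib
import Pool.Agent.Helper24K9.ES.Cc
import Pool.Agent.Helper24K9.EP.Se
import Pool.Agent.Helper24K9.EP.Ma

set_option autoImplicit false

/-! Arbitrary sparse sets of arguments on a line of coefficients. -/

open Finset Filter Topology

namespace Pool.Agent.Helper24K9.EM

open Pool.Agent.Erdos456 Pool.Agent.Erdos456.Mert Pool.Agent.W218.HF Pool.Agent.Helper24K9.EL Pool.Agent.Helper24K9.ES

namespace Ln

variable (l : Ln)

/-- the sieving limit -/
noncomputable def yK (K : ℕ) : ℕ := ⌈Real.log (Real.log K)⌉₊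

lemma ev_sizes (B : ℕ) (S : ℝ) : ∀ᶠ K : ℕ in atTop, 4 * S + 4 ≤ Real.log K ∧ 2 ^ (3 * B + 8) ≤ Real.log K ∧
    Real.log K ^ (B + 10) ≤ K ∧ Real.exp 1 ≤ Real.log K ∧ 4 ≤ K := by
  have h1 : Tendsto (fun n : ℕ => Real.log n) atTop atTop := Real.tendsto_log_atTop.comp tendsto_natCast_atTop_atTop
  have h2 := (Real.isLittleO_pow_log_id_atTop (n := B + 10)).bound (show (0:ℝ) < 1 by norm_num)
  filter_upwards [h1.eventually_ge_atTop (4 * S + 4), h1.eventually_ge_atTop (2 ^ (3 * B + 8)),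
    tendsto_natCast_atTop_atTop.eventually h2, h1.eventually_ge_atTop (Real.exp 1), eventually_ge_atTop 4,
    h1.eventually_ge_atTop 0] with K h3 h4 h5 h6 h7 h8
  refine ⟨h3, h4, ?_, h6, h7⟩
  have hx0 : (0:ℝ) ≤ K := Nat.cast_nonneg _
  simp only [id_eq] at h5
  rw [Real.norm_of_nonneg (by positivity), Real.norm_of_nonneg hx0, one_mul] at h5
  exact h5

/-- **Sparse sets of arguments.** -/
theorem sparse (B : ℕ) (κ : ℝ) (hκ : 0 < κ) (hκ1 : κ < 1) : ∃ κ₂ : ℝ, 0 < κ₂ ∧ ∃ K₀ : ℕ, ∀ K : ℕ, K₀ ≤ K →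
    ∀ T : Finset ℕ, (∀ t ∈ T, l.t0 ≤ t ∧ (t : ℝ) ≤ Real.log K ^ B) → (∀ t ∈ T, IsCoprime (l.G t) (l.H t)) →
    κ₂ * min (T.card / Real.log K) (Wz (yK K)) * K ≤ ((((Icc 1 K).filter (fun k : ℕ =>
      κ₂ * (T.card / Real.log K) ≤ l.numP k T ∧
      (1 - κ) * (l.unsieved (yK K) k T / Wz (yK K)) / Real.log K ≤ l.numP k T)).card : ℕ) : ℝ) := by
  classical
  obtain ⟨κ₁, hκ₁, N₀, hforms⟩ := forms (3 * B + 7) κ hκ hκ1.le
  obtain ⟨K₁, hK₁⟩ := eventually_atTop.1 (ev_sizes B l.S)
  refine ⟨min (κ₁ / 8) ((1 - κ) / 2), by apply lt_min (by positivity); linarith, max K₁ (N₀ ^ 2), fun K hK T hT hTc => ?_⟩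
  obtain ⟨z1, z2, z3, z4, z5⟩ := hK₁ K ((le_max_left _ _).trans hK)
  have hKN₀ : N₀ ^ 2 ≤ K := (le_max_right _ _).trans hK
  have hSpos : (1:ℝ) ≤ l.S := by exact_mod_cast l.S_pos'
  set L : ℝ := Real.log K with hL
  have hL8 : 8 ≤ L := by linarith
  have hL0 : 0 < L := by linarith
  have hL1 : 1 ≤ L := by linarith
  have hK4 : (4:ℝ) ≤ K := by exact_mod_cast z5
  have hK0 : (0:ℝ) < K := by linarith
  set y : ℕ := yK K with hy
  have hyL : Real.log L ≤ y := Nat.le_ceil _
  have hlogL : 1 ≤ Real.log L := by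
    rw [Real.le_log_iff_exp_le hL0]; exact z4
  have hy1 : (y : ℝ) ≤ Real.log L + 1 := (Nat.ceil_lt_add_one (by linarith)).le
  set P : ℕ := Pz y with hP
  have hP0 : 0 < P := Pz_pos y
  have hP0r : (0:ℝ) < P := by exact_mod_cast hP0
  have hP1r : (1:ℝ) ≤ P := by exact_mod_cast hP0
  have hPL : (P : ℝ) ≤ L ^ 3 := by
    have h1 : (P : ℝ) ≤ 4 ^ y := by exact_mod_cast Pz_le y
    have h2 : (4:ℝ) ^ y = Real.exp (y * Real.log 4) := by
      rw [Real.exp_nat_mul, Real.exp_log (by norm_num)]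
    have h3 : Real.log 4 ≤ 3 / 2 := by
      have e : (4:ℝ) = 2 ^ 2 := by norm_num
      rw [e, Real.log_pow]
      have := Real.log_two_lt_d9
      push_cast
      linarith
    have h4 : L ^ 3 = Real.exp (3 * Real.log L) := by
      rw [show (3:ℝ) = ((3:ℕ):ℝ) by norm_num, Real.exp_nat_mul, Real.exp_log hL0]
    rw [h4]
    refine h1.trans ?_
    rw [h2]
    apply Real.exp_le_exp.2
    have h5 : (0:ℝ) ≤ y := Nat.cast_nonneg _
    nlinarith
  set x : ℕ := ⌊L ^ B⌋₊ with hx
  have hxL : (x : ℝ) ≤ L ^ B := Nat.floor_le (by positivity)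
  have hTx : ∀ t ∈ T, t ≤ x := fun t ht => Nat.le_floor (hT t ht).2
  set m₀ : ℕ := 2 * l.S * x with hm₀
  set N : ℕ := K / P - m₀ - 1 with hN
  have hLB1 : 1 ≤ L ^ B := one_le_pow₀ hL1
  have hm₀r : (m₀ : ℝ) + 2 ≤ L ^ (B + 1) := by
    rw [hm₀]
    push_cast
    calc 2 * (l.S:ℝ) * x + 2 ≤ 2 * l.S * L ^ B + 2 * L ^ B := by
          have : 2 * (l.S:ℝ) * x ≤ 2 * l.S * L ^ B := by gcongr
          linarith
      _ = (2 * l.S + 2) * L ^ B := by ring
      _ ≤ L * L ^ B := by
          apply mul_le_mul_of_nonneg_right _ (by positivity)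
          linarith
      _ = L ^ (B + 1) := by ring
  -- `N` is large
  have hNP : (K : ℝ) ≤ 2 * (N * P) := by
    have h1 : (m₀ : ℝ) + 2 ≤ K / (2 * P) := by
      rw [le_div_iff₀ (by positivity)]
      calc ((m₀ : ℝ) + 2) * (2 * P) ≤ L ^ (B + 1) * (2 * L ^ 3) := by gcongr
        _ ≤ L ^ (B + 1) * (L * L ^ 3) := by gcongr; linarith
        _ = L ^ (B + 5) := by ring
        _ ≤ L ^ (B + 10) := pow_le_pow_right₀ hL1 (by omega)
        _ ≤ K := z3
    have h2 : (K : ℝ) / P - 1 ≤ ((K / P : ℕ) : ℝ) := by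
      have := Nat.lt_div_mul_add (a := K) hP0
      rw [sub_le_iff_le_add, div_le_iff₀ hP0r]
      have h3 : (K : ℝ) ≤ (K / P : ℕ) * P + P := by exact_mod_cast this.le
      linarith
    have h3 : ((K / P : ℕ) : ℝ) - m₀ - 1 ≤ N := by
      have : K / P ≤ N + (m₀ + 1) := by omega
      have h4 : ((K / P : ℕ) : ℝ) ≤ N + (m₀ + 1) := by exact_mod_cast this
      linarith
    have h4 : (K : ℝ) / (2 * P) ≤ N := by
      have e : (K : ℝ) / P = K / (2 * P) + K / (2 * P) := by field_simp; ring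
      linarith
    rw [div_le_iff₀ (by positivity)] at h4
    linarith
  have hPK : P * (m₀ + N + 1) ≤ K := by
    have h1 : 0 < N := by
      by_contra hcon
      have : N = 0 := by omega
      rw [this] at hNP
      simp only [Nat.cast_zero, zero_mul, mul_zero] at hNP
      linarith
    have h2 : m₀ + N + 1 = K / P := by omega
    rw [h2]
    exact Nat.mul_div_le K P
  have hNK : N ≤ K := by
    calc N ≤ m₀ + N + 1 := by omega
      _ ≤ P * (m₀ + N + 1) := Nat.le_mul_of_pos_left _ hP0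
      _ ≤ K := hPK
  have hKN2 : (K : ℝ) ≤ (N:ℝ) ^ 2 := by
    have h1 : 4 * (P:ℝ) ^ 2 ≤ K := by
      calc 4 * (P:ℝ) ^ 2 ≤ L * (L ^ 3) ^ 2 := by gcongr; linarith
        _ = L ^ 7 := by ring
        _ ≤ L ^ (B + 10) := pow_le_pow_right₀ hL1 (by omega)
        _ ≤ K := z3
    have h2 : (K:ℝ) ^ 2 ≤ (2 * (N * P)) ^ 2 := pow_le_pow_left₀ hK0.le hNP 2
    have h3 : (K:ℝ) * K ≤ K * (N:ℝ) ^ 2 := by
      calc (K:ℝ) * K = (K:ℝ) ^ 2 := by ring
        _ ≤ (2 * (N * P)) ^ 2 := h2
        _ = (4 * (P:ℝ) ^ 2) * (N:ℝ) ^ 2 := by ring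
        _ ≤ K * (N:ℝ) ^ 2 := by gcongr
    exact le_of_mul_le_mul_left h3 hK0
  have hN0 : N₀ ≤ N := by
    have h1 : (N₀ : ℝ) ^ 2 ≤ (N:ℝ) ^ 2 := le_trans (by exact_mod_cast hKN₀) hKN2
    exact_mod_cast (pow_le_pow_iff_left₀ (Nat.cast_nonneg _) (Nat.cast_nonneg _) two_ne_zero).1 h1
  have hNpos : (0:ℝ) < N := by
    by_contra hcon
    push Not at hcon
    have h1 : (N:ℝ) = 0 := le_antisymm hcon (Nat.cast_nonneg _)
    rw [h1] at hKN2
    linarith
  set M : ℝ := Real.log N with hM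
  have hLM : L ≤ 2 * M := by
    have h1 := Real.log_le_log hK0 hKN2
    rw [Real.log_pow] at h1
    exact_mod_cast h1
  have hML : M ≤ L := Real.log_le_log hNpos (by exact_mod_cast hNK)
  have hM0 : 0 < M := by linarith
  have hM1 : 1 ≤ M := by linarith
  have hyM : Real.log M ≤ y := (Real.log_le_log hM0 hML).trans hyL
  have hup : L ^ (3 * B + 6) ≤ M ^ (3 * B + 7) := by
    have h1 : (2:ℝ) ^ (3 * B + 6) ≤ M := by
      have h2 : (2:ℝ) ^ (3 * B + 8) = 4 * 2 ^ (3 * B + 6) := by ring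
      have h3 : (0:ℝ) < 2 ^ (3 * B + 6) := by positivity
      linarith
    calc L ^ (3 * B + 6) ≤ (2 * M) ^ (3 * B + 6) := by gcongr
      _ = 2 ^ (3 * B + 6) * M ^ (3 * B + 6) := by rw [mul_pow]
      _ ≤ M * M ^ (3 * B + 6) := by gcongr
      _ = M ^ (3 * B + 7) := by ring
  have hW0 : 0 < Wz y := Wz_pos y
  set W : ℝ := Wz y with hW
  -- the forms
  set q : ℕ → ℕ := fun t => P * l.g t with hq
  set e : ℕ → ℕ → ℕ := fun r t => (((r : ℤ) + P * m₀) * l.G t + l.H t).toNat with he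
  have hgcast : ∀ t ∈ T, ((l.g t : ℕ) : ℤ) = l.G t := fun t ht => l.g_cast (hT t ht).1
  have hgpos : ∀ t ∈ T, 1 ≤ l.g t := fun t ht => l.g_pos (hT t ht).1
  have hecast : ∀ r : ℕ, ∀ t ∈ T, ((e r t : ℕ) : ℤ) = ((r : ℤ) + P * m₀) * l.G t + l.H t := by
    intro r t ht
    have h1 : 0 ≤ ((r + P * m₀ : ℕ) : ℤ) * l.G t + l.H t := by
      apply l.val_nonneg (hT t ht).1
      calc 2 * l.S * t ≤ 2 * l.S * x := Nat.mul_le_mul_left _ (hTx t ht)
        _ = m₀ := rfl
        _ ≤ P * m₀ := Nat.le_mul_of_pos_left _ hP0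
        _ ≤ r + P * m₀ := Nat.le_add_left _ _
    rw [he]
    apply Int.toNat_of_nonneg
    push_cast at h1
    exact h1
  set Tr : ℕ → Finset ℕ := fun r => T.filter (fun t => ∀ p ≤ y, p.Prime → ¬ (p : ℤ) ∣ (r : ℤ) * l.G t + l.H t) with hTr
  have hTrT : ∀ r, Tr r ⊆ T := fun r => filter_subset _ _
  have hdvd : ∀ (p r n : ℕ) (g h : ℤ), p ∣ P → ((p : ℤ) ∣ ((r + P * n : ℕ) : ℤ) * g + h ↔ (p : ℤ) ∣ (r : ℤ) * g + h) := by
    intro p r n g h hp
    obtain ⟨c, hc⟩ := hp
    have e1 : ((r + P * n : ℕ) : ℤ) * g + h = ((r : ℤ) * g + h) + p * (c * n * g) := by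
      rw [hc]; push_cast; ring
    rw [e1]
    exact dvd_add_left (Dvd.intro _ rfl)
  have hcopG : ∀ r : ℕ, ∀ t ∈ T, Nat.Coprime (l.g t) (e r t) := by
    intro r t ht
    have h3 : IsCoprime ((l.g t : ℕ) : ℤ) ((e r t : ℕ) : ℤ) := by
      rw [hecast r t ht, hgcast t ht]
      have := (hTc t ht).add_mul_left_right ((r : ℤ) + P * m₀)
      have e3 : l.H t + l.G t * ((r : ℤ) + P * m₀) = ((r : ℤ) + P * m₀) * l.G t + l.H t := by ring
      rwa [e3] at this
    exact Nat.isCoprime_iff_coprime.1 h3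
  have hcop : ∀ r : ℕ, ∀ t ∈ Tr r, Nat.Coprime (q t) (e r t) := by
    intro r t ht
    have htT := hTrT r ht
    rw [hTr] at ht
    have ht2 := (mem_filter.1 ht).2
    rw [hq]
    apply Nat.Coprime.mul_left _ (hcopG r t htT)
    rw [hP]
    unfold Pz
    apply Nat.Coprime.prod_left
    intro p hp
    rw [mem_filter, mem_Icc] at hp
    rw [hp.2.coprime_iff_not_dvd]
    intro h
    apply ht2 p hp.1.2 hp.2
    have h1 : (p : ℤ) ∣ ((e r t : ℕ) : ℤ) := by exact_mod_cast h
    rw [hecast r t htT] at h1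
    have h2 := hdvd p r m₀ (l.G t) (l.H t) (dvd_Pz hp.2 hp.1.2)
    push_cast at h2
    exact h2.1 h1
  have hgt : ∀ t ∈ T, (l.g t : ℝ) ≤ L ^ (2 * B + 1) := by
    intro t ht
    have h1 : (l.G t : ℝ) ≤ l.S * (t:ℝ) ^ 2 := by exact_mod_cast l.G_le_sq (l.one_le_of_t0 (hT t ht).1)
    have h2 : ((l.g t : ℕ) : ℝ) = (l.G t : ℝ) := by exact_mod_cast congrArg (fun z : ℤ => (z : ℝ)) (hgcast t ht)
    rw [h2]
    calc (l.G t : ℝ) ≤ l.S * (t:ℝ) ^ 2 := h1
      _ ≤ L * (L ^ B) ^ 2 := by
          have := (hT t ht).2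
          gcongr
          linarith
      _ = L ^ (2 * B + 1) := by ring
  have hqle : ∀ t ∈ T, (q t : ℝ) ≤ M ^ (3 * B + 7) := by
    intro t ht
    rw [hq]
    push_cast
    calc (P : ℝ) * l.g t ≤ L ^ 3 * L ^ (2 * B + 1) := by
          have := hgt t ht
          gcongr
      _ = L ^ (2 * B + 4) := by ring
      _ ≤ L ^ (3 * B + 6) := pow_le_pow_right₀ hL1 (by omega)
      _ ≤ _ := hup
  have hele : ∀ r < P, ∀ t ∈ T, (e r t : ℝ) ≤ M ^ (3 * B + 7) := by
    intro r hr t ht
    have h1 : ((e r t : ℕ) : ℝ) = ((r : ℝ) + P * m₀) * (l.G t : ℝ) + (l.H t : ℝ) := by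
      have := congrArg (fun z : ℤ => (z : ℝ)) (hecast r t ht)
      push_cast at this
      exact this
    have h2 : ((l.g t : ℕ) : ℝ) = (l.G t : ℝ) := by exact_mod_cast congrArg (fun z : ℤ => (z : ℝ)) (hgcast t ht)
    have h3 : (l.H t : ℝ) ≤ l.S * (t:ℝ) ^ 2 := by
      have h4 := l.abs_H_le (l.one_le_of_t0 (hT t ht).1)
      have h5 : l.H t ≤ l.S * (t:ℤ) ^ 2 := (le_abs_self _).trans h4
      exact_mod_cast h5
    rw [h1, ← h2]
    have hrP : (r : ℝ) ≤ P := by exact_mod_cast hr.le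
    have h5 : (r : ℝ) + P * m₀ ≤ L ^ (B + 4) := by
      calc (r : ℝ) + P * m₀ ≤ P * (m₀ + 2) := by nlinarith
        _ ≤ L ^ 3 * L ^ (B + 1) := by gcongr
        _ = L ^ (B + 4) := by ring
    have h6 : (l.H t : ℝ) ≤ L ^ (2 * B + 1) := by
      calc (l.H t : ℝ) ≤ l.S * (t:ℝ) ^ 2 := h3
        _ ≤ L * (L ^ B) ^ 2 := by
            have := (hT t ht).2
            gcongr
            linarith
        _ = L ^ (2 * B + 1) := by ring
    calc ((r : ℝ) + P * m₀) * l.g t + (l.H t : ℝ) ≤ L ^ (B + 4) * L ^ (2 * B + 1) + L ^ (2 * B + 1) := by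
          have := hgt t ht
          gcongr
      _ ≤ L ^ (3 * B + 5) + L ^ (3 * B + 5) := by
          have h7 : L ^ (2 * B + 1) ≤ L ^ (3 * B + 5) := pow_le_pow_right₀ hL1 (by omega)
          have h8 : L ^ (B + 4) * L ^ (2 * B + 1) = L ^ (3 * B + 5) := by ring
          linarith
      _ = 2 * L ^ (3 * B + 5) := by ring
      _ ≤ L * L ^ (3 * B + 5) := by gcongr; linarith
      _ = L ^ (3 * B + 6) := by ring
      _ ≤ _ := hup
  -- the exceptional sets
  set E : ℕ → Finset ℕ := fun r => (Icc 1 N).filter (fun n => (1 - κ) * ((Tr r).card / (W * M)) ≤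
        (((Tr r).filter (fun t => (q t * n + e r t).Prime)).card : ℝ)) with hE
  have hEc : ∀ r < P, κ₁ * N * (((Tr r).card / (W * M)) / (1 + (Tr r).card / (W * M))) ≤ ((E r).card : ℝ) := by
    intro r hr
    refine hforms N hN0 y hyM (Tr r) q (e r) ?_ ?_
    · intro t ht
      have htT := hTrT r ht
      exact ⟨Nat.mul_pos hP0 (hgpos t htT), hqle t htT, hele r hr t htT, hcop r t ht, Dvd.intro _ rfl⟩
    · intro s hs t ht hst h
      have hsT := hTrT r hs
      have htT := hTrT r ht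
      have h1 : l.g s * e r t = l.g t * e r s := by
        rw [hq] at h
        have h2 : P * (l.g s * e r t) = P * (l.g t * e r s) := by
          have h3 : P * l.g s * e r t = P * l.g t * e r s := h
          rw [← mul_assoc, ← mul_assoc]; exact h3
        exact Nat.eq_of_mul_eq_mul_left hP0 h2
      have h3 : l.g s ∣ l.g t := by
        have h4 : l.g s ∣ l.g t * e r s := ⟨e r t, h1.symm⟩
        exact (hcopG r s hsT).dvd_of_dvd_mul_right h4
      have h4 : l.g t ∣ l.g s := by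
        have h5 : l.g t ∣ l.g s * e r t := ⟨e r s, h1⟩
        exact (hcopG r t htT).dvd_of_dvd_mul_right h5
      have h5 := Nat.dvd_antisymm h3 h4
      have h6 : l.G s = l.G t := by
        rw [← hgcast s hsT, ← hgcast t htT, h5]
      rcases lt_or_gt_of_ne hst with h7 | h7
      · have := l.G_lt (hT s hsT).1 h7; linarith
      · have := l.G_lt (hT t htT).1 h7; linarith
  -- the good classes
  set c : ℝ := (T.card : ℝ) with hc
  have hc0 : 0 ≤ c := Nat.cast_nonneg _
  set lam : ℝ := c / M with hlam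
  have hlam0 : 0 ≤ lam := by positivity
  set X : ℕ → ℝ := fun r => (Tr r).card / (W * M) with hX
  have hX0 : ∀ r, 0 ≤ X r := fun r => by rw [hX]; positivity
  have hXle : ∀ r, X r ≤ lam / W := by
    intro r
    have h1 : ((Tr r).card : ℝ) ≤ (T.card : ℝ) := by exact_mod_cast card_le_card (hTrT r)
    show ((Tr r).card : ℝ) / (W * M) ≤ c / M / W
    rw [div_div, mul_comm M W]
    exact div_le_div_of_nonneg_right h1 (by positivity)
  have hXsum : P * lam ≤ ∑ r ∈ range P, X r := by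
    have h1 : ∑ r ∈ range P, X r = (1 / (W * M)) * ∑ t ∈ T,
        (((range P).filter (fun r : ℕ => ∀ p ≤ y, p.Prime → ¬ (p : ℤ) ∣ (r : ℤ) * l.G t + l.H t)).card : ℝ) := by
      rw [hX, mul_sum]
      simp only [hTr, card_filter]
      push_cast
      simp only [div_eq_mul_inv, one_mul]
      rw [← sum_mul, sum_comm, mul_comm, mul_sum]
    rw [h1]
    have h2 : (c * (P * W)) ≤ ∑ t ∈ T,
        (((range P).filter (fun r : ℕ => ∀ p ≤ y, p.Prime → ¬ (p : ℤ) ∣ (r : ℤ) * l.G t + l.H t)).card : ℝ) := by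
      have h3 := sum_le_sum fun t ht => class_count y (l.G t) (l.H t) (hTc t ht)
      rw [sum_const, nsmul_eq_mul] at h3
      exact h3
    calc (P:ℝ) * lam = (1 / (W * M)) * (c * (P * W)) := by rw [hlam]; field_simp
      _ ≤ _ := mul_le_mul_of_nonneg_left h2 (by positivity)
  set R := (range P).filter (fun r => lam / 2 ≤ X r) with hR
  have hRsum : P * lam / 2 ≤ ∑ r ∈ R, X r := by
    have h1 := sum_filter_add_sum_filter_not (range P) (fun r => lam / 2 ≤ X r) X
    have h2 : ∑ r ∈ (range P).filter (fun r => ¬ lam / 2 ≤ X r), X r ≤ P * (lam / 2) := by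
      refine (sum_le_sum (g := fun _ => lam / 2) ?_).trans ?_
      · intro r hr
        rw [mem_filter, not_le] at hr
        exact hr.2.le
      · rw [sum_const, nsmul_eq_mul]
        apply mul_le_mul_of_nonneg_right _ (by positivity)
        have := card_le_card (filter_subset (fun r => ¬ lam / 2 ≤ X r) (range P))
        rw [card_range] at this
        exact_mod_cast this
    rw [← hR] at h1
    linarith
  -- the union
  set 𝓔 := (Icc 1 K).filter (fun k : ℕ =>
      min (κ₁ / 8) ((1 - κ) / 2) * (c / L) ≤ l.numP k T ∧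
      (1 - κ) * (l.unsieved y k T / W) / L ≤ l.numP k T) with h𝓔
  have hunion : ∑ r ∈ R, ((E r).card : ℝ) ≤ (𝓔.card : ℝ) := by
    have h1 : (R.sigma E).card ≤ 𝓔.card := by
      apply card_le_card_of_injOn (fun s : (_ : ℕ) × ℕ => s.1 + P * (m₀ + s.2))
      · rintro ⟨r, n⟩ hs
        rw [mem_coe, mem_sigma] at hs
        obtain ⟨hr, hn⟩ := hs
        simp only at hr hn ⊢
        rw [hR, mem_filter, mem_range] at hr
        rw [hE] at hn
        simp only [mem_filter, mem_Icc] at hn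
        obtain ⟨hn1, hn2⟩ := hn
        have hkK : r + P * (m₀ + n) ≤ K := by
          calc r + P * (m₀ + n) ≤ P + P * (m₀ + n) := Nat.add_le_add_right hr.1.le _
            _ = P * (m₀ + n + 1) := by ring
            _ ≤ P * (m₀ + N + 1) := Nat.mul_le_mul_left _ (by omega)
            _ ≤ K := hPK
        have hk1 : 1 ≤ r + P * (m₀ + n) := by
          have : 1 ≤ P * (m₀ + n) := Nat.mul_pos hP0 (by omega)
          omega
        have hval : ∀ t ∈ T, (((r + P * (m₀ + n) : ℕ) : ℤ) * l.G t + l.H t).toNat = q t * n + e r t := by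
          intro t ht
          have h2 : ((r + P * (m₀ + n) : ℕ) : ℤ) * l.G t + l.H t = ((q t * n + e r t : ℕ) : ℤ) := by
            rw [hq]
            push_cast
            rw [hecast r t ht, hgcast t ht]
            ring
          rw [h2, Int.toNat_natCast]
        have hnum : (((Tr r).filter (fun t => (q t * n + e r t).Prime)).card : ℝ) ≤ l.numP (r + P * (m₀ + n)) T := by
          have : ((Tr r).filter (fun t => (q t * n + e r t).Prime)).card ≤ l.numP (r + P * (m₀ + n)) T := by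
            unfold numP
            apply card_le_card
            intro t ht
            rw [mem_filter] at ht
            rw [mem_filter, hval t (hTrT r ht.1)]
            exact ⟨hTrT r ht.1, ht.2⟩
          exact_mod_cast this
        have huns : l.unsieved y (r + P * (m₀ + n)) T = (Tr r).card := by
          unfold unsieved
          rw [hTr]
          congr 1
          apply filter_congr
          intro t _
          constructor
          · intro h p hp1 hp2
            rw [← hdvd p r (m₀ + n) (l.G t) (l.H t) (dvd_Pz hp2 hp1)]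
            exact h p hp1 hp2
          · intro h p hp1 hp2
            rw [hdvd p r (m₀ + n) (l.G t) (l.H t) (dvd_Pz hp2 hp1)]
            exact h p hp1 hp2
        rw [mem_coe, h𝓔, mem_filter, mem_Icc]
        refine ⟨⟨hk1, hkK⟩, ?_, ?_⟩
        · refine le_trans ?_ (hn2.trans hnum)
          have h3 : lam / 2 ≤ X r := hr.2
          have h4 : c / L ≤ lam := by
            rw [hlam]
            exact div_le_div_of_nonneg_left hc0 hM0 hML
          calc min (κ₁ / 8) ((1 - κ) / 2) * (c / L) ≤ ((1 - κ) / 2) * lam := by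
                apply mul_le_mul (min_le_right _ _) h4 (by positivity)
                linarith
            _ = (1 - κ) * (lam / 2) := by ring
            _ ≤ (1 - κ) * X r := mul_le_mul_of_nonneg_left h3 (by linarith)
        · refine le_trans ?_ (hn2.trans hnum)
          rw [huns, mul_div_assoc, div_div]
          apply mul_le_mul_of_nonneg_left _ (by linarith)
          gcongr
      · rintro ⟨r, n⟩ hs ⟨r', n'⟩ hs' heq
        rw [mem_coe, mem_sigma] at hs hs'
        have hr := mem_range.1 (mem_filter.1 hs.1).1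
        have hr' := mem_range.1 (mem_filter.1 hs'.1).1
        simp only at hr hr' heq
        have h1 : r = r' := by
          have h2 := congrArg (fun m => m % P) heq
          simp only [Nat.add_mul_mod_self_left] at h2
          rw [Nat.mod_eq_of_lt hr, Nat.mod_eq_of_lt hr'] at h2
          exact h2
        subst h1
        have h2 : P * (m₀ + n) = P * (m₀ + n') := by omega
        have h3 := Nat.eq_of_mul_eq_mul_left hP0 h2
        have h4 : n = n' := by omega
        rw [h4]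
    rw [card_sigma] at h1
    exact_mod_cast h1
  refine le_trans ?_ hunion
  have hlow : ∀ r ∈ R, κ₁ * N * (1 / (1 + lam / W)) * X r ≤ ((E r).card : ℝ) := by
    intro r hr
    have hrP : r < P := mem_range.1 (mem_filter.1 hr).1
    refine le_trans ?_ (hEc r hrP)
    have h1 := hX0 r
    have h2 := hXle r
    have e1 : κ₁ * N * (1 / (1 + lam / W)) * X r = κ₁ * N * (X r / (1 + lam / W)) := by ring
    rw [e1]
    apply mul_le_mul_of_nonneg_left _ (by positivity)
    exact div_le_div_of_nonneg_left h1 (by positivity) (by linarith)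
  refine le_trans ?_ (sum_le_sum hlow)
  rw [← mul_sum]
  have h1 : κ₁ * N * (1 / (1 + lam / W)) * (P * lam / 2) ≤ κ₁ * N * (1 / (1 + lam / W)) * ∑ r ∈ R, X r :=
    mul_le_mul_of_nonneg_left hRsum (by positivity)
  refine le_trans ?_ h1
  have h2 : min lam W ≤ 2 * (lam * (1 / (1 + lam / W))) := by
    have e1 : lam * (1 / (1 + lam / W)) = lam * W / (W + lam) := by field_simp
    rw [e1, ← mul_div_assoc, le_div_iff₀ (by positivity)]
    rcases le_total lam W with h | h
    · rw [min_eq_left h]; nlinarith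
    · rw [min_eq_right h]; nlinarith
  have h3 : min (c / L) W ≤ min lam W := by
    apply min_le_min_right
    rw [hlam]
    exact div_le_div_of_nonneg_left hc0 hM0 hML
  have h4 : 0 ≤ min (c / L) W := le_min (by positivity) hW0.le
  calc min (κ₁ / 8) ((1 - κ) / 2) * min (c / L) W * K ≤ (κ₁ / 8) * min (c / L) W * (2 * (N * P)) := by
        gcongr
        exact min_le_left _ _
    _ ≤ (κ₁ / 8) * (2 * (lam * (1 / (1 + lam / W)))) * (2 * (N * P)) := by
        gcongr
        exact h3.trans h2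
    _ = κ₁ * N * (1 / (1 + lam / W)) * (P * lam / 2) := by ring

end Ln

end Pool.Agent.Helper24K9.EM
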