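import Mathlib
import Pool.Agent.Helper24K9.ES.Main
import Pool.Agent.Helper507.PNT

set_option autoImplicit false

/-! Sparse sets of arguments: the final form; the size of the `n`-th prime. -/

open Finset Filter Topology

namespace Pool.Agent.Helper24K9.ES

/-- the `m`-th prime is at most `m ^ 2` -/
theorem nth_prime_le : ∃ m₀ : ℕ, ∀ m : ℕ, m₀ ≤ m → Nat.nth Nat.Prime m ≤ (m + 1) ^ 2 := by
  have h1 := Helper507.PNT.pi_tendsto.eventually (Ici_mem_nhds (show (1/2:ℝ) < 1 by norm_num))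
  have h2 := (isLittleO_log_rpow_atTop (show (0:ℝ) < 1/2 by norm_num)).bound (show (0:ℝ) < 1/2 by norm_num)
  obtain ⟨x₀, hx₀⟩ := eventually_atTop.1 (h1.and (h2.and (eventually_ge_atTop 2)))
  refine ⟨⌈x₀⌉₊, fun m hm => ?_⟩
  set x : ℕ := Nat.nth Nat.Prime m with hx
  have hmx : m ≤ x := (Nat.nth_strictMono Nat.infinite_setOf_prime).le_apply
  have hx1 : x₀ ≤ (x : ℝ) := (Nat.le_ceil _).trans (by exact_mod_cast hm.trans hmx)
  obtain ⟨h3, h4, h5⟩ := hx₀ x hx1
  rw [Nat.floor_natCast] at h3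
  have hpi : Nat.primeCounting x = m + 1 := by
    have h6 : Nat.primeCounting' x = m := Nat.primeCounting'_nth_eq m
    have hxp : x.Prime := Nat.prime_nth_prime m
    unfold Nat.primeCounting
    unfold Nat.primeCounting' at h6 ⊢
    rw [Nat.count_succ, h6, if_pos hxp]
  rw [hpi] at h3
  have hx0 : (0:ℝ) < x := by linarith
  have hl0 : 0 < Real.log x := Real.log_pos (by linarith)
  rw [Real.norm_of_nonneg hl0.le, Real.norm_of_nonneg (by positivity), ← Real.sqrt_eq_rpow] at h4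
  rw [le_div_iff₀ hx0] at h3
  have hs : Real.sqrt x * Real.sqrt x = x := Real.mul_self_sqrt hx0.le
  have hs0 : 0 < Real.sqrt x := Real.sqrt_pos.2 hx0
  have h6 : Real.sqrt x ≤ ((m + 1 : ℕ) : ℝ) := by
    have h7 : 1 / 2 * (Real.sqrt x * Real.sqrt x) ≤ ((m + 1 : ℕ) : ℝ) * (1 / 2 * Real.sqrt x) := by
      calc 1 / 2 * (Real.sqrt x * Real.sqrt x) = 1 / 2 * x := by rw [hs]
        _ ≤ ((m + 1 : ℕ) : ℝ) * Real.log x := h3
        _ ≤ _ := by gcongr
    have h8 : (1 / 2 * Real.sqrt x) * Real.sqrt x ≤ (1 / 2 * Real.sqrt x) * ((m + 1 : ℕ) : ℝ) := by linarith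
    exact le_of_mul_le_mul_left h8 (by positivity)
  have h7 : (x : ℝ) ≤ ((m + 1 : ℕ) : ℝ) ^ 2 := by
    rw [← hs, sq]
    gcongr
  exact_mod_cast h7

/-- `∏_{p ≤ y} (1 - 1 / p)` for `y = log log K` -/
theorem W_yK : ∃ c : ℝ, 0 < c ∧ ∃ K₀ : ℕ, ∀ K : ℕ, K₀ ≤ K →
    c / Real.log (Real.log (Real.log K)) ≤ Pool.Agent.W218.HF.Wz (Pool.Agent.Helper24K9.EM.Ln.yK K) := by
  obtain ⟨c, hc, h⟩ := Wz_lower
  refine ⟨c / 2, by positivity, ?_⟩
  have h1 : Tendsto (fun n : ℕ => Real.log n) atTop atTop := Real.tendsto_log_atTop.comp tendsto_natCast_atTop_atTop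
  have h2 := (Real.tendsto_log_atTop.comp h1).eventually_ge_atTop 3
  obtain ⟨K₀, hK₀⟩ := eventually_atTop.1 h2
  refine ⟨K₀, fun K hK => ?_⟩
  have h3 : 3 ≤ Real.log (Real.log K) := hK₀ K hK
  set M := Real.log (Real.log K) with hM
  set y := Pool.Agent.Helper24K9.EM.Ln.yK K with hy
  have hyM : M ≤ y := Nat.le_ceil _
  have hyM2 : (y : ℝ) ≤ M + 1 := (Nat.ceil_lt_add_one (by linarith)).le
  have hy3r : (3:ℝ) ≤ y := h3.trans hyM
  have hy3 : 3 ≤ y := by exact_mod_cast hy3r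
  refine le_trans ?_ (h y hy3)
  have hlM : 0 < Real.log M := Real.log_pos (by linarith)
  have hly : 0 < Real.log y := Real.log_pos (by linarith)
  have h4 : Real.log y ≤ 2 * Real.log M := by
    have h5 : (y : ℝ) ≤ M ^ 2 := by nlinarith
    have h6 := Real.log_le_log (by linarith) h5
    rw [Real.log_pow] at h6
    exact_mod_cast h6
  rw [div_div]
  exact div_le_div_of_nonneg_left hc.le hly h4

end Pool.Agent.Helper24K9.ES

namespace Pool.Agent.Helper24K9.EM

open Pool.Agent.W218.HF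

namespace Ln

variable (l : Ln)

/-- **Sparse sets of arguments, final form.** -/
theorem sparse' (B : ℕ) (θ : ℝ) (hθ : θ < 1) : ∃ κ : ℝ, 0 < κ ∧ ∃ K₀ : ℕ, ∀ K : ℕ, K₀ ≤ K →
    ∀ T : Finset ℕ, (∀ t ∈ T, l.t0 ≤ t ∧ (t : ℝ) ≤ Real.log K ^ B) → (∀ t ∈ T, IsCoprime (l.G t) (l.H t)) →
    κ * min (T.card / Real.log K) (1 / Real.log (Real.log (Real.log K))) * K ≤ ((((Icc 1 K).filter (fun k : ℕ =>
      κ * (T.card / Real.log K) ≤ l.numP k T ∧
      θ * ((l.unsieved (yK K) k T / Wz (yK K)) / Real.log K) ≤ l.numP k T)).card : ℕ) : ℝ) := by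
  classical
  set θ₀ : ℝ := max θ (1 / 2) with hθ₀
  have hθ0 : 1 / 2 ≤ θ₀ := le_max_right _ _
  have hθ1 : θ₀ < 1 := max_lt hθ (by norm_num)
  have hθθ : θ ≤ θ₀ := le_max_left _ _
  obtain ⟨κ₂, hκ₂, K₁, h1⟩ := l.sparse B (1 - θ₀) (by linarith) (by linarith)
  obtain ⟨c, hc, K₂, h2⟩ := Pool.Agent.Helper24K9.ES.W_yK
  have h1t : Tendsto (fun n : ℕ => Real.log n) atTop atTop := Real.tendsto_log_atTop.comp tendsto_natCast_atTop_atTop
  obtain ⟨K₃, hK₃⟩ := eventually_atTop.1 ((Real.tendsto_log_atTop.comp h1t).eventually_ge_atTop (Real.exp 1))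
  refine ⟨κ₂ * min 1 c, by positivity, max (max K₁ K₂) (max K₃ 3), fun K hK T hT hTc => ?_⟩
  have hK1 : K₁ ≤ K := ((le_max_left _ _).trans (le_max_left _ _)).trans hK
  have hK2 : K₂ ≤ K := ((le_max_right _ _).trans (le_max_left _ _)).trans hK
  have hK3 : K₃ ≤ K := ((le_max_left _ _).trans (le_max_right _ _)).trans hK
  have hK4 : 3 ≤ K := ((le_max_right _ _).trans (le_max_right _ _)).trans hK
  have hK0 : (0:ℝ) ≤ K := Nat.cast_nonneg _
  have hM : Real.exp 1 ≤ Real.log (Real.log K) := hK₃ K hK3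
  have hLp : 0 < Real.log K := Real.log_pos (by exact_mod_cast (by omega : 1 < K))
  have hll : 1 ≤ Real.log (Real.log (Real.log K)) := by
    rw [Real.le_log_iff_exp_le ((Real.exp_pos _).trans_le hM)]
    exact hM
  have h3 := h1 K hK1 T hT hTc
  rw [show (1:ℝ) - (1 - θ₀) = θ₀ by ring] at h3
  refine le_trans ?_ (h3.trans ?_)
  · rw [mul_assoc κ₂]
    apply mul_le_mul_of_nonneg_right _ hK0
    apply mul_le_mul_of_nonneg_left _ hκ₂.le
    apply le_min
    · calc min 1 c * min (T.card / Real.log K) (1 / Real.log (Real.log (Real.log K))) ≤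
          1 * (T.card / Real.log K) := by
            apply mul_le_mul (min_le_left _ _) (min_le_left _ _) (by positivity) (by norm_num)
        _ = _ := one_mul _
    · refine le_trans ?_ (h2 K hK2)
      calc min 1 c * min (T.card / Real.log K) (1 / Real.log (Real.log (Real.log K))) ≤
          c * (1 / Real.log (Real.log (Real.log K))) := by
            apply mul_le_mul (min_le_right _ _) (min_le_right _ _) (by positivity) hc.le
        _ = _ := by ring
  · apply Nat.cast_le.2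
    apply card_le_card
    intro k hk
    rw [mem_filter] at hk ⊢
    obtain ⟨h4, h5, h6⟩ := hk
    refine ⟨h4, le_trans ?_ h5, le_trans ?_ h6⟩
    · apply mul_le_mul_of_nonneg_right _ (by positivity)
      calc κ₂ * min 1 c ≤ κ₂ * 1 := by gcongr; exact min_le_left _ _
        _ = κ₂ := mul_one _
    · rw [mul_div_assoc]
      apply mul_le_mul_of_nonneg_right hθθ
      have := Wz_pos (yK K)
      positivity

end Ln

end Pool.Agent.Helper24K9.EM
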